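import Pool.Agent.H78.STN.Stmts2

/-!
# Row ENU of the board `sto`: the ten blocks together
-/

set_option autoImplicit false

namespace Pool.STN

theorem enu_block (h : SIMStmt) (c : ℕ) (hc : ENStmt c) (m0 : ℕ) (h1 : 10000 * c ≤ m0)
    (h2 : m0 < 10000 * (c + 1) + 2) (h3 : m0 % 2 = 0) (h4 : m0 % 3 ≠ 0) (h5 : 5 ≤ m0)
    (h6 : m0 ≠ 44) (h7 : m0 ≠ 62) (h8 : m0 ≠ 70) (h9 : m0 ≠ 74) : esc m0 :=
  h 70 m0 (by omega) h3 h4 (hc m0 h1 h2 h3 h4 h5 h6 h7 h8 h9)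

theorem ENU_thm (h : SIMStmt) (e0 : ENStmt 0) (e1 : ENStmt 1) (e2 : ENStmt 2) (e3 : ENStmt 3)
    (e4 : ENStmt 4) (e5 : ENStmt 5) (e6 : ENStmt 6) (e7 : ENStmt 7) (e8 : ENStmt 8)
    (e9 : ENStmt 9) : ENUStmt := by
  intro m0 hm h3 h4 h5 h6 h7 h8 h9
  have hcase : ∃ c : ℕ, c ≤ 9 ∧ 10000 * c ≤ m0 ∧ m0 < 10000 * (c + 1) + 2 := by
    by_cases hc : m0 / 10000 ≤ 9
    · exact ⟨m0 / 10000, hc, by omega, by omega⟩
    · exact ⟨9, le_refl 9, by omega, by omega⟩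
  obtain ⟨c, hc, h1, h2⟩ := hcase
  have hall : ENStmt c := by
    interval_cases c
    · exact e0
    · exact e1
    · exact e2
    · exact e3
    · exact e4
    · exact e5
    · exact e6
    · exact e7
    · exact e8
    · exact e9
  exact enu_block h c hall m0 h1 h2 h3 h4 h5 h6 h7 h8 h9

end Pool.STN
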