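import Pool.Agent.H78.STN.Stmts2

/-!
# Row ISF of the board `sto`: `F` is Collatz's permutation
-/

set_option autoImplicit false

open Pool.Agent.H40.COL

namespace Pool.STN

theorem ISF_thm : ISFStmt := by
  refine ⟨?_, ?_, ?_⟩
  · intro n hn
    have h1 : 3 * n % 3 = 0 := by omega
    unfold F
    rw [if_pos h1]
    omega
  · intro n hn
    have h1 : (3 * n - 1) % 3 ≠ 0 := by omega
    have h2 : (3 * n - 1) % 3 = 2 := by omega
    unfold F
    rw [if_neg h1, if_pos h2]
    omega
  · intro n hn
    have h1 : (3 * n - 2) % 3 ≠ 0 := by omega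
    have h2 : (3 * n - 2) % 3 ≠ 2 := by omega
    unfold F
    rw [if_neg h1, if_neg h2]
    omega

end Pool.STN
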