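import Pool.Agent.H78.STN.Stmts2

/-!
# Row SIM of the board `sto`: correctness of the simulation (second proof)
-/

set_option autoImplicit false

open Finset

namespace Pool.STN

/-- the switches -/
def sim_P (m0 j : ℕ) : Prop := F^[j] m0 % 3 = 0 ∧ F^[j + 1] m0 % 3 ≠ 0

instance (m0 j : ℕ) : Decidable (sim_P m0 j) := inferInstanceAs (Decidable (_ ∧ _))

theorem sim_mono (m0 s T : ℕ) :
    ((Ico (s + 1) T).filter fun j => sim_P m0 j).card ≤ ((Ico s T).filter fun j => sim_P m0 j).card :=
  card_le_card (filter_subset_filter _ (Ico_subset_Ico_left (Nat.le_succ s)))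

theorem sim_add (m0 s T : ℕ) (hT : s + 1 ≤ T) (hP : sim_P m0 s) :
    ((Ico (s + 1) T).filter fun j => sim_P m0 j).card + 1 ≤
      ((Ico s T).filter fun j => sim_P m0 j).card := by
  have h : insert s ((Ico (s + 1) T).filter fun j => sim_P m0 j) ⊆
      (Ico s T).filter fun j => sim_P m0 j := by
    intro j hj
    rw [mem_insert] at hj
    rcases hj with rfl | hj
    · exact mem_filter.2 ⟨mem_Ico.2 ⟨le_refl _, hT⟩, hP⟩
    · rw [mem_filter, mem_Ico] at hj
      exact mem_filter.2 ⟨mem_Ico.2 ⟨by omega, hj.1.2⟩, hj.2⟩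
  have h2 := card_le_card h
  rwa [card_insert_of_notMem (by
    intro hc
    rw [mem_filter, mem_Ico] at hc
    omega)] at h2

theorem sim_main (m0 : ℕ) (h2 : m0 % 2 = 0) (h3 : m0 % 3 ≠ 0) : ∀ (n s c x : ℕ),
    x = F^[s] m0 → 1 ≤ x → (∀ j, 1 ≤ j → j ≤ s → F^[j] m0 ≠ m0) → sim n m0 x c = true →
    ∃ T, s ≤ T ∧ (∀ j, 1 ≤ j → j ≤ T → F^[j] m0 ≠ m0) ∧
      c + 1 ≤ ((Ico s T).filter fun j => sim_P m0 j).card := by
  intro n
  induction n with
  | zero =>
    intro s c x _ _ _ h
    simp [sim] at h
  | succ n ih =>
    intro s c x hx hx1 hne h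
    have hFs : F^[s + 1] m0 = F x := by rw [Function.iterate_succ_apply', ← hx]
    have hext : ∀ y, F x = y → y ≠ m0 → ∀ j, 1 ≤ j → j ≤ s + 1 → F^[j] m0 ≠ m0 := by
      intro y hy hym j hj1 hj2
      rcases Nat.lt_or_ge j (s + 1) with hj | hj
      · exact hne j hj1 (by omega)
      · have : j = s + 1 := by omega
        rw [this, hFs, hy]
        exact hym
    have h012 : x % 3 = 0 ∨ x % 3 = 1 ∨ x % 3 = 2 := by omega
    rcases h012 with hm | hm | hm
    · have hF : F x = 2 * (x / 3) := by
        unfold F
        rw [if_pos hm]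
      by_cases hy3 : 2 * (x / 3) % 3 = 0
      · have h4 : sim n m0 (2 * (x / 3)) c = true := by
          simpa [sim, hm, hy3] using h
        have hym : 2 * (x / 3) ≠ m0 := by
          intro hc
          rw [hc] at hy3
          exact h3 hy3
        obtain ⟨T, hT, hT1, hT2⟩ := ih (s + 1) c (2 * (x / 3)) (by rw [hFs, hF]) (by omega)
          (hext _ hF hym) h4
        exact ⟨T, by omega, hT1, hT2.trans (sim_mono m0 s T)⟩
      · have hPs : sim_P m0 s := by
          refine ⟨?_, ?_⟩
          · rw [← hx]
            exact hm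
          · rw [hFs, hF]
            exact hy3
        by_cases hym : 2 * (x / 3) = m0
        · exfalso
          have hb : Nat.beq (2 * (x / 3) % 3) 0 = false := by
            rw [Bool.eq_false_iff]
            intro hc
            exact hy3 (Nat.eq_of_beq_eq_true hc)
          have hb2 : Nat.beq (2 * (x / 3)) m0 = true := by
            rw [hym]
            exact Nat.beq_refl m0
          simp only [sim, hm, hb, hb2, cond_false, cond_true] at h
          exact Bool.false_ne_true h
        · have hb : Nat.beq (2 * (x / 3) % 3) 0 = false := by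
            rw [Bool.eq_false_iff]
            intro hc
            exact hy3 (Nat.eq_of_beq_eq_true hc)
          have hb2 : Nat.beq (2 * (x / 3)) m0 = false := by
            rw [Bool.eq_false_iff]
            intro hc
            exact hym (Nat.eq_of_beq_eq_true hc)
          simp only [sim, hm, hb, hb2, cond_false] at h
          cases c with
          | zero =>
            refine ⟨s + 1, Nat.le_succ s, hext _ hF hym, ?_⟩
            have := sim_add m0 s (s + 1) (le_refl _) hPs
            omega
          | succ c =>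
            obtain ⟨T, hT, hT1, hT2⟩ := ih (s + 1) c (2 * (x / 3)) (by rw [hFs, hF]) (by omega)
              (hext _ hF hym) h
            refine ⟨T, by omega, hT1, ?_⟩
            have := sim_add m0 s T hT hPs
            omega
    · have hF : F x = (4 * x - 1) / 3 := by
        unfold F
        rw [if_neg (by omega), if_neg (by omega)]
      have h4 : sim n m0 ((4 * x - 1) / 3) c = true := by
        simp only [sim, hm] at h
        exact h
      have hym : (4 * x - 1) / 3 ≠ m0 := by omega
      obtain ⟨T, hT, hT1, hT2⟩ := ih (s + 1) c _ (by rw [hFs, hF]) (by omega)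
        (hext _ hF hym) h4
      exact ⟨T, by omega, hT1, hT2.trans (sim_mono m0 s T)⟩
    · have hF : F x = (4 * x + 1) / 3 := by
        unfold F
        rw [if_neg (by omega), if_pos hm]
      have h4 : sim n m0 ((4 * x + 1) / 3) c = true := by
        simp only [sim, hm] at h
        exact h
      have hym : (4 * x + 1) / 3 ≠ m0 := by omega
      obtain ⟨T, hT, hT1, hT2⟩ := ih (s + 1) c _ (by rw [hFs, hF]) (by omega)
        (hext _ hF hym) h4
      exact ⟨T, by omega, hT1, hT2.trans (sim_mono m0 s T)⟩

theorem SIM_thm : SIMStmt := by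
  intro n m0 h1 h2 h3 h
  obtain ⟨T, -, hT1, hT2⟩ := sim_main m0 h2 h3 n 0 3 m0 rfl h1 (by
    intro j hj1 hj2
    omega) h
  refine ⟨T, hT1, ?_⟩
  rw [← range_eq_Ico] at hT2
  exact hT2

end Pool.STN
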